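import Pool.Agent.W499.PD.UBa

/-!
# PD-UB: discrete stick breaking is close to continuous stick breaking
-/

set_option autoImplicit false

namespace Pool.Agent.W499.PD

open MeasureTheory Measure Finset
open Pool.Agent.W805.PD

/-- The set of levels reached at least `i + 1` times. -/
def lev (i : ℕ) (X : ℕ → ℝ) : Set ℝ := {x : ℝ | ((i + 1 : ℕ) : ℕ∞) ≤ Set.encard {j : ℕ | x ≤ X j}}

/-- The nonnegative levels reached at least `i + 1` times, and zero. -/
def levp (i : ℕ) (X : ℕ → ℝ) : Set ℝ :=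
  {x : ℝ | 0 ≤ x ∧ (x = 0 ∨ ((i + 1 : ℕ) : ℕ∞) ≤ Set.encard {j : ℕ | x ≤ X j})}

theorem zero_mem_lev (i : ℕ) (X : ℕ → ℝ) (h0 : ∀ j, 0 ≤ X j) : (0 : ℝ) ∈ lev i X := by
  have : {j : ℕ | (0 : ℝ) ≤ X j} = Set.univ := by
    ext j; simpa using h0 j
  show ((i + 1 : ℕ) : ℕ∞) ≤ Set.encard {j : ℕ | (0 : ℝ) ≤ X j}
  rw [this, Set.encard_eq_top Set.infinite_univ]
  exact le_top

theorem mem_lev_exists (i : ℕ) (X : ℕ → ℝ) (x : ℝ)
    (h : ((i + 1 : ℕ) : ℕ∞) ≤ Set.encard {j : ℕ | x ≤ X j}) : ∃ j, x ≤ X j := by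
  by_contra hc
  push Not at hc
  have : {j : ℕ | x ≤ X j} = ∅ := by
    ext j; simpa using hc j
  rw [this, Set.encard_empty] at h
  simp at h

theorem lev_le (i : ℕ) (X : ℕ → ℝ) (B : ℝ) (h1 : ∀ j, X j ≤ B) (x : ℝ) (hx : x ∈ lev i X) :
    x ≤ B := by
  obtain ⟨j, hj⟩ := mem_lev_exists i X x hx
  exact hj.trans (h1 j)

theorem lev_mono (i : ℕ) (X Y : ℕ → ℝ) (x y : ℝ) (h : ∀ j, x ≤ X j → y ≤ Y j)
    (hx : ((i + 1 : ℕ) : ℕ∞) ≤ Set.encard {j : ℕ | x ≤ X j}) :
    ((i + 1 : ℕ) : ℕ∞) ≤ Set.encard {j : ℕ | y ≤ Y j} :=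
  hx.trans (Set.encard_le_encard (fun j hj => h j hj))

theorem ord_near (i : ℕ) (X Y : ℕ → ℝ) (c ε B : ℝ) (hc : 0 ≤ c) (hε : 0 ≤ ε)
    (hX0 : ∀ j, 0 ≤ X j) (hX1 : ∀ j, X j ≤ 1) (hY0 : ∀ j, 0 ≤ Y j) (hY1 : ∀ j, Y j ≤ B)
    (h : ∀ j, |Y j - c * X j| ≤ ε) :
    |sSup (levp i Y) - c * sSup (lev i X)| ≤ ε := by
  have hB : 0 ≤ B := (hY0 0).trans (hY1 0)
  have hbX : BddAbove (lev i X) := ⟨1, fun x hx => lev_le i X 1 hX1 x hx⟩
  have hbY : BddAbove (levp i Y) := ⟨B, by
    rintro x ⟨_, hx2⟩
    rcases hx2 with h0 | h1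
    · rw [h0]; exact hB
    · exact lev_le i Y B hY1 x h1⟩
  have hnX : (lev i X).Nonempty := ⟨0, zero_mem_lev i X hX0⟩
  have hnY : (levp i Y).Nonempty := ⟨0, le_refl _, Or.inl rfl⟩
  have hsX : 0 ≤ sSup (lev i X) := le_csSup hbX (zero_mem_lev i X hX0)
  have hsY : 0 ≤ sSup (levp i Y) := le_csSup hbY ⟨le_refl _, Or.inl rfl⟩
  have hj := fun j => abs_le.mp (h j)
  rw [abs_le]
  constructor
  · -- c * sSup lev ≤ sSup levp + ε
    have key : ∀ x ∈ lev i X, c * x ≤ sSup (levp i Y) + ε := by
      intro x hx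
      rcases le_or_gt (c * x - ε) 0 with h0 | h0
      · linarith
      · have : c * x - ε ∈ levp i Y := by
          refine ⟨h0.le, Or.inr (lev_mono i X Y x _ ?_ hx)⟩
          intro j hxj
          have := mul_le_mul_of_nonneg_left hxj hc
          linarith [(hj j).1]
        have := le_csSup hbY this
        linarith
    rcases hc.eq_or_lt with h0 | h0
    · rw [← h0]; linarith
    · have : sSup (lev i X) ≤ (sSup (levp i Y) + ε) / c := by
        apply csSup_le hnX
        intro x hx
        rw [le_div_iff₀ h0]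
        linarith [key x hx]
      rw [le_div_iff₀ h0] at this
      linarith
  · rw [_root_.sub_le_iff_le_add]
    apply csSup_le hnY
    rintro x ⟨hx0, hx⟩
    rcases hx with hx | hx
    · rw [hx]
      have := mul_nonneg hc hsX
      linarith
    · rcases hc.eq_or_lt with h0 | h0
      · obtain ⟨j, hjx⟩ := mem_lev_exists i Y x hx
        have := (hj j).2
        rw [← h0] at this ⊢
        linarith
      · have : (x - ε) / c ∈ lev i X := by
          refine lev_mono i Y X x _ ?_ hx
          intro j hxj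
          rw [div_le_iff₀ h0]
          linarith [(hj j).2]
        have := le_csSup hbX this
        rw [div_le_iff₀ h0] at this
        linarith

/-- The multiset and the sequence of discrete sticks. -/
theorem seqF_card (m : ℕ) (x : ℝ) (hx : 0 < x) (n : ℕ) : ∀ (a : ℕ), a ≤ n →
    ∀ U : ℕ → unitInterval,
    (Multiset.card ((seqF n a U).filter fun c : ℕ => x ≤ (c : ℝ) / m) : ℕ∞) =
      Set.encard {j : ℕ | x ≤ (ell j a U : ℝ) / m} := by
  induction n with
  | zero =>
    intro a ha U
    obtain rfl : a = 0 := by omega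
    have : {j : ℕ | x ≤ (ell j 0 U : ℝ) / m} = ∅ := by
      ext j
      simp [ell_zero_left, hx]
    rw [this]
    simp [seqF]
  | succ n ih =>
    intro a ha U
    by_cases h0 : a = 0
    · subst h0
      have : {j : ℕ | x ≤ (ell j 0 U : ℝ) / m} = ∅ := by
        ext j
        simp [ell_zero_left, hx]
      rw [this]
      simp [seqF]
    · simp only [seqF]
      rw [if_neg h0]
      have hp := cut_pos a (U 0) (by omega)
      have ih' := ih (a - cut a (U 0)) (by omega) (shf U)
      by_cases hc : x ≤ (cut a (U 0) : ℝ) / m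
      · rw [Multiset.filter_cons_of_pos (p := fun c : ℕ => x ≤ (c : ℝ) / m) _ hc, Multiset.card_cons]
        have hset : {j : ℕ | x ≤ (ell j a U : ℝ) / m} =
            insert 0 (Nat.succ '' {j : ℕ | x ≤ (ell j (a - cut a (U 0)) (shf U) : ℝ) / m}) := by
          ext j
          cases j with
          | zero => simp [ell, hc]
          | succ j => simp [ell]
        rw [hset, Set.encard_insert_of_notMem (by simp), Nat.succ_injective.encard_image, ← ih']
        push_cast
        rfl
      · rw [Multiset.filter_cons_of_neg (p := fun c : ℕ => x ≤ (c : ℝ) / m) _ hc]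
        have hset : {j : ℕ | x ≤ (ell j a U : ℝ) / m} =
            (Nat.succ '' {j : ℕ | x ≤ (ell j (a - cut a (U 0)) (shf U) : ℝ) / m}) := by
          ext j
          cases j with
          | zero => simp [ell]; exact lt_of_not_ge hc
          | succ j => simp [ell]
        rw [hset, Nat.succ_injective.encard_image, ← ih']

theorem ordMS_seqF (m n a i : ℕ) (ha : a ≤ n) (U : ℕ → unitInterval) :
    ordMS m (seqF n a U) i = sSup (levp i fun j => (ell j a U : ℝ) / m) := by
  unfold ordMS levp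
  congr 1
  ext x
  refine and_congr_right (fun hx => ?_)
  rcases hx.eq_or_lt with h0 | h0
  · simp [← h0]
  · refine or_congr_right ?_
    rw [← seqF_card m x h0 n a ha U]
    exact_mod_cast Iff.rfl

theorem ordMS_mem (m : ℕ) (hm : 0 < m) (s : Multiset ℕ) (hs : ∀ c ∈ s, c ≤ m) (i : ℕ) :
    ordMS m s i ∈ Set.Icc (0 : ℝ) 1 := by
  have hm' : (0 : ℝ) < m := by exact_mod_cast hm
  have hle : ∀ x ∈ {x : ℝ | 0 ≤ x ∧
      (x = 0 ∨ i + 1 ≤ Multiset.card (s.filter fun c : ℕ => x ≤ (c : ℝ) / m))}, x ≤ 1 := by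
    rintro x ⟨hx0, hx⟩
    rcases hx with hx | hx
    · rw [hx]; norm_num
    · obtain ⟨c, hc⟩ := Multiset.card_pos_iff_exists_mem.mp (lt_of_lt_of_le (Nat.succ_pos i) hx)
      rw [Multiset.mem_filter] at hc
      refine hc.2.trans ?_
      rw [div_le_one hm']
      exact_mod_cast hs c hc.1
  unfold ordMS
  exact ⟨le_csSup ⟨1, hle⟩ ⟨le_refl _, Or.inl rfl⟩, csSup_le ⟨0, le_refl _, Or.inl rfl⟩ hle⟩

theorem lev_mem (i : ℕ) (X : ℕ → ℝ) (h0 : ∀ j, 0 ≤ X j) (h1 : ∀ j, X j ≤ 1) :
    sSup (lev i X) ∈ Set.Icc (0 : ℝ) 1 :=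
  ⟨le_csSup ⟨1, fun x hx => lev_le i X 1 h1 x hx⟩ (zero_mem_lev i X h0),
    csSup_le ⟨0, zero_mem_lev i X h0⟩ (fun x hx => lev_le i X 1 h1 x hx)⟩

theorem Xs_meas (j : ℕ) : Measurable (Xs j) := by
  unfold Xs
  exact (measurable_subtype_coe.comp (measurable_pi_apply j)).mul (Wr_meas j)

/-- The ordered sticks are measurable. -/
theorem lev_meas (i : ℕ) :
    Measurable (fun U : ℕ → unitInterval => sSup (lev i fun j => Xs j U)) := by
  apply measurable_of_Ioi
  intro y
  have hset : (fun U : ℕ → unitInterval => sSup (lev i fun j => Xs j U)) ⁻¹' Set.Ioi y =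
      ⋃ T : Finset ℕ, ⋃ _ : T.card = i + 1, ⋂ j ∈ T, {U : ℕ → unitInterval | y < Xs j U} := by
    ext U
    have hb : BddAbove (lev i fun j => Xs j U) :=
      ⟨1, fun x hx => lev_le i _ 1 (fun j => Xs_le_one j U) x hx⟩
    have hn : (lev i fun j => Xs j U).Nonempty := ⟨0, zero_mem_lev i _ (fun j => Xs_nonneg j U)⟩
    simp only [Set.mem_preimage, Set.mem_Ioi, Set.mem_iUnion, Set.mem_iInter, Set.mem_ofPred_eq,
      exists_prop]
    rw [lt_csSup_iff hb hn]
    constructor
    · rintro ⟨x, hx, hyx⟩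
      obtain ⟨t, hts, htc⟩ := Set.exists_subset_encard_eq (show ((i + 1 : ℕ) : ℕ∞) ≤ _ from hx)
      have hfin : t.Finite := Set.finite_of_encard_eq_coe htc
      refine ⟨hfin.toFinset, ?_, ?_⟩
      · rw [hfin.encard_eq_coe_toFinset_card] at htc
        exact_mod_cast htc
      · intro j hj
        have : x ≤ Xs j U := hts (by simpa using hj)
        linarith
    · rintro ⟨T, hTc, hT⟩
      have hTn : T.Nonempty := by
        rw [← Finset.card_pos]; omega
      refine ⟨T.inf' hTn (fun j => Xs j U), ?_, ?_⟩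
      · have hsub : (T : Set ℕ) ⊆ {j : ℕ | T.inf' hTn (fun j => Xs j U) ≤ Xs j U} := by
          intro j hj
          exact Finset.inf'_le (fun j => Xs j U) (by simpa using hj)
        have := Set.encard_le_encard hsub
        rw [Set.encard_coe_eq_coe_finsetCard, hTc] at this
        exact this
      · rw [Finset.lt_inf'_iff]
        exact hT
  rw [hset]
  refine MeasurableSet.iUnion (fun T => MeasurableSet.iUnion (fun _ => ?_))
  refine MeasurableSet.biInter T.countable_toSet (fun j _ => ?_)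
  exact measurableSet_lt measurable_const (Xs_meas j)

theorem main : S_UB := by
  intro k f δ hf hδ
  set Kc : Set (Fin k → ℝ) := Set.pi Set.univ (fun _ => Set.Icc (0 : ℝ) 1) with hKc
  have hcomp : IsCompact Kc := isCompact_univ_pi (fun _ => isCompact_Icc)
  obtain ⟨B0, hB0⟩ := hcomp.exists_bound_of_continuousOn hf.continuousOn
  set B : ℝ := max B0 1 with hBdef
  have hBpos : 0 < B := lt_of_lt_of_le one_pos (le_max_right _ _)
  have hB : ∀ x ∈ Kc, |f x| ≤ B := fun x hx => by
    have := hB0 x hx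
    rw [Real.norm_eq_abs] at this
    exact this.trans (le_max_left _ _)
  have huc := hcomp.uniformContinuousOn_of_continuous hf.continuousOn
  obtain ⟨ε, hε, hεf⟩ := Metric.uniformContinuousOn_iff.mp huc (δ / 2) (by positivity)
  obtain ⟨J, hJ⟩ := exists_pow_lt_of_lt_one (show (0 : ℝ) < δ * ε / (8 * B) by positivity)
    (show (1 / 2 : ℝ) < 1 by norm_num)
  obtain ⟨m1, hm1⟩ := exists_nat_gt (4 * (J : ℝ) / ε)
  refine ⟨m1 + 1, fun m hm a ha => ?_⟩
  have hmpos : 0 < m := by omega
  have hm' : (0 : ℝ) < m := by exact_mod_cast hmpos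
  have hJm : (J : ℝ) / m ≤ ε / 4 := by
    have h1 : (m1 : ℝ) ≤ m := by exact_mod_cast (by omega : m1 ≤ m)
    rw [div_lt_iff₀ hε] at hm1
    rw [div_le_div_iff₀ hm' (by norm_num)]
    nlinarith
  have ham : (a : ℝ) / m ≤ 1 := by
    rw [div_le_one hm']; exact_mod_cast ha
  have ham0 : 0 ≤ (a : ℝ) / m := by positivity
  -- the two vectors
  set A : (ℕ → unitInterval) → (Fin k → ℝ) := fun U i => ordMS m (seqF m a U) i with hA
  set P : (ℕ → unitInterval) → (Fin k → ℝ) :=
    fun U i => (a : ℝ) / m * sSup (lev i fun j => Xs j U) with hP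
  have hAmem : ∀ U, A U ∈ Kc := by
    intro U i _
    exact ordMS_mem m hmpos _ (fun c hc => (seqF_le _ _ _ _ hc).trans ha) i
  have hPmem : ∀ U, P U ∈ Kc := by
    intro U i _
    have h1 := lev_mem i (fun j => Xs j U) (fun j => Xs_nonneg j U) (fun j => Xs_le_one j U)
    constructor
    · exact mul_nonneg ham0 h1.1
    · exact mul_le_one₀ ham h1.1 h1.2
  have hdist : ∀ U, dist (A U) (P U) ≤ Wr J U + J / m := by
    intro U
    have hW := Wr_nonneg J U
    rw [dist_pi_le_iff (by positivity)]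
    intro i
    rw [Real.dist_eq, hA, hP]
    simp only
    rw [ordMS_seqF m m a i ha U]
    refine (ord_near i (fun j => Xs j U) (fun j => (ell j a U : ℝ) / m) ((a : ℝ) / m)
      ((a : ℝ) / m * Wr J U + J / m) ((a : ℝ) / m) ham0 (by positivity)
      (fun j => Xs_nonneg j U) (fun j => Xs_le_one j U) (fun j => by positivity)
      (fun j => ?_) (fun j => ?_)).trans ?_
    · have : (ell j a U : ℝ) ≤ a := by exact_mod_cast ell_le j a U
      gcongr
    · have := ell_all J j a U
      rw [show (ell j a U : ℝ) / m - (a : ℝ) / m * Xs j U =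
        ((ell j a U : ℝ) - a * Xs j U) / m by ring, abs_div, abs_of_pos hm',
        show (a : ℝ) / m * Wr J U + J / m = (a * Wr J U + J) / m by ring]
      gcongr
    · have := mul_le_mul_of_nonneg_right ham hW
      linarith
  have hpt : ∀ U, |f (A U) - f (P U)| ≤ δ / 2 + 4 * B / ε * Wr J U := by
    intro U
    have hW := Wr_nonneg J U
    rcases lt_or_ge (Wr J U) (ε / 2) with h | h
    · have h1 : dist (A U) (P U) < ε := by
        have := hdist U
        linarith
      have h2 := hεf _ (hAmem U) _ (hPmem U) h1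
      rw [Real.dist_eq] at h2
      have : 0 ≤ 4 * B / ε * Wr J U := by positivity
      linarith
    · have h1 := hB _ (hAmem U)
      have h2 := hB _ (hPmem U)
      have h3 : |f (A U) - f (P U)| ≤ 2 * B := by
        have := abs_sub (f (A U)) (f (P U))
        linarith
      have h4 : 2 * B ≤ 4 * B / ε * Wr J U := by
        calc 2 * B = 4 * B / ε * (ε / 2) := by field_simp; ring
          _ ≤ 4 * B / ε * Wr J U := by gcongr
      linarith
  have hAint : Integrable (fun U => f (A U)) nuI := by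
    refine Integrable.of_bound (C := B)
      (seqF_meas m a (fun s => f fun i : Fin k => ordMS m s i)).aestronglyMeasurable ?_
    exact Filter.Eventually.of_forall (fun U => hB _ (hAmem U))
  have hPint : Integrable (fun U => f (P U)) nuI := by
    have hPm : Measurable P := measurable_pi_lambda _ (fun i => (lev_meas i).const_mul _)
    refine Integrable.of_bound (C := B) (hf.measurable.comp hPm).aestronglyMeasurable ?_
    exact Filter.Eventually.of_forall (fun U => hB _ (hPmem U))
  have hWint : Integrable (Wr J) nuI := by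
    refine Integrable.of_bound (C := 1) (Wr_meas J).aestronglyMeasurable ?_
    exact Filter.Eventually.of_forall (fun U => by
      rw [Real.norm_eq_abs, abs_of_nonneg (Wr_nonneg _ _)]; exact Wr_le_one _ _)
  have hstick : stick a (fun s => f fun i : Fin k => ordMS m s i) = ∫ U, f (A U) ∂nuI :=
    stick_eq m a ha (fun s => f fun i : Fin k => ordMS m s i) B (fun U => hB _ (hAmem U))
  have hpd : pdInt k f ((a : ℝ) / m) = ∫ U, f (P U) ∂nuI := rfl
  rw [hstick, hpd, ← integral_sub hAint hPint]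
  calc |∫ U, (f (A U) - f (P U)) ∂nuI| ≤ ∫ U, |f (A U) - f (P U)| ∂nuI := by
        have := norm_integral_le_integral_norm (μ := nuI) (fun U => f (A U) - f (P U))
        simpa [Real.norm_eq_abs] using this
    _ ≤ ∫ U, (δ / 2 + 4 * B / ε * Wr J U) ∂nuI := by
        refine integral_mono (hAint.sub hPint).abs ?_ hpt
        exact (integrable_const _).add (hWint.const_mul _)
    _ = δ / 2 + 4 * B / ε * (1 / 2) ^ J := by
        rw [integral_add (integrable_const _) (hWint.const_mul _), integral_const_mul, Wr_int]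
        simp
    _ ≤ δ := by
        have : 4 * B / ε * (1 / 2) ^ J ≤ 4 * B / ε * (δ * ε / (8 * B)) := by gcongr
        have h2 : 4 * B / ε * (δ * ε / (8 * B)) = δ / 2 := by field_simp; ring
        linarith

end Pool.Agent.W499.PD
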