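import Pool.Agent.W805.LR.Stm5

/-!
# PD-UB, part a: the infinite product of uniform variables and the exploration by sticks
-/

set_option autoImplicit false

namespace Pool.Agent.W499.PD

open MeasureTheory Measure Finset
open Pool.Agent.W805.PD

/-- Infinitely many uniform variables. -/
noncomputable def nuI : Measure (ℕ → unitInterval) :=
  Measure.infinitePi (fun _ : ℕ => (volume : Measure unitInterval))

instance : IsProbabilityMeasure nuI := by unfold nuI; infer_instance

/-- Prepend one coordinate. -/
def consU (p : unitInterval × (ℕ → unitInterval)) : ℕ → unitInterval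
  | 0 => p.1
  | n + 1 => p.2 n

theorem consU_meas : Measurable consU := by
  refine measurable_pi_lambda _ (fun n => ?_)
  cases n with
  | zero => exact measurable_fst
  | succ n => exact (measurable_pi_apply n).comp measurable_snd

theorem map_consU : ((volume : Measure unitInterval).prod nuI).map consU = nuI := by
  classical
  unfold nuI
  apply eq_infinitePi
  intro s t ht
  rw [Measure.map_apply consU_meas]
  · set s' : Finset ℕ := s.preimage Nat.succ (Nat.succ_injective.injOn) with hs'
    have hpre : consU ⁻¹' (Set.pi (s : Set ℕ) t) =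
        (if 0 ∈ s then t 0 else Set.univ) ×ˢ Set.pi (s' : Set ℕ) (fun n => t (n + 1)) := by
      ext p
      simp only [Set.mem_preimage, Set.mem_pi, Set.mem_prod]
      constructor
      · intro h
        refine ⟨?_, ?_⟩
        · split_ifs with h0
          · exact h 0 (by simpa using h0)
          · trivial
        · intro n hn
          have : n + 1 ∈ (s : Set ℕ) := by simpa [hs'] using hn
          exact h (n + 1) this
      · rintro ⟨h1, h2⟩ n hn
        cases n with
        | zero =>
          have h0 : 0 ∈ s := by simpa using hn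
          rw [if_pos h0] at h1
          exact h1
        | succ n =>
          exact h2 n (by simpa [hs'] using hn)
    rw [hpre, Measure.prod_prod, infinitePi_pi _ (fun i _ => ht _)]
    have h1 : ∏ i ∈ s', (volume : Measure unitInterval) (t (i + 1)) =
        ∏ i ∈ s with i ≠ 0, (volume : Measure unitInterval) (t i) := by
      have := Finset.prod_preimage' Nat.succ s (Nat.succ_injective.injOn)
        (fun i => (volume : Measure unitInterval) (t i))
      rw [← hs'] at this
      simp only [Nat.succ_eq_add_one] at this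
      rw [this]
      refine Finset.prod_congr ?_ (fun _ _ => rfl)
      ext i
      simp only [Finset.mem_filter, Set.mem_range]
      refine and_congr_right (fun _ => ?_)
      constructor
      · rintro ⟨y, rfl⟩
        exact Nat.succ_ne_zero y
      · intro h
        exact ⟨i - 1, by omega⟩
    rw [h1]
    rw [← Finset.prod_filter_mul_prod_filter_not s (fun i => i = 0)]
    congr 1
    split_ifs with h0
    · rw [Finset.filter_eq' s 0, if_pos h0]
      simp
    · rw [Finset.filter_eq' s 0, if_neg h0]
      simp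
  · exact MeasurableSet.pi s.countable_toSet (fun i _ => ht i)

/-- Integrate over the first coordinate separately. -/
theorem int_decomp (F : (ℕ → unitInterval) → ℝ) (hF : Measurable F) (B : ℝ)
    (hB : ∀ U, |F U| ≤ B) :
    ∫ U, F U ∂nuI = ∫ u : unitInterval, ∫ U, F (consU (u, U)) ∂nuI := by
  conv_lhs => rw [← map_consU]
  rw [integral_map consU_meas.aemeasurable hF.aestronglyMeasurable]
  rw [integral_prod]
  apply Integrable.of_bound (C := B) (hF.comp consU_meas).aestronglyMeasurable
  exact Filter.Eventually.of_forall (fun p => by simpa using hB (consU p))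

/-- The shift. -/
def shf (U : ℕ → unitInterval) : ℕ → unitInterval := fun n => U (n + 1)

theorem shf_meas : Measurable shf :=
  measurable_pi_lambda _ (fun n => measurable_pi_apply (n + 1))

@[simp] theorem consU_zero (u : unitInterval) (U : ℕ → unitInterval) : consU (u, U) 0 = u := rfl
@[simp] theorem shf_consU (u : unitInterval) (U : ℕ → unitInterval) : shf (consU (u, U)) = U := rfl

/-- A uniform element of `1, ..., a`. -/
noncomputable def cut (a : ℕ) (u : unitInterval) : ℕ := min a (⌊(u : ℝ) * a⌋₊ + 1)

theorem cut_le (a : ℕ) (u : unitInterval) : cut a u ≤ a := min_le_left _ _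

theorem cut_pos (a : ℕ) (u : unitInterval) (ha : 0 < a) : 1 ≤ cut a u := by
  unfold cut; omega

theorem cut_zero (u : unitInterval) : cut 0 u = 0 := by simp [cut]

theorem cut_near (a : ℕ) (u : unitInterval) : |(cut a u : ℝ) - u * a| ≤ 1 := by
  have h0 : (0 : ℝ) ≤ (u : ℝ) * a := mul_nonneg u.2.1 (Nat.cast_nonneg a)
  have h1 := Nat.floor_le h0
  have h2 := Nat.lt_floor_add_one ((u : ℝ) * a)
  have h3 : (u : ℝ) * a ≤ a := by
    have := mul_le_mul_of_nonneg_right u.2.2 (Nat.cast_nonneg (α := ℝ) a)
    simpa using this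
  unfold cut
  rw [abs_le]
  push_cast
  constructor
  · rcases min_choice (a : ℝ) ((⌊(u : ℝ) * a⌋₊ : ℝ) + 1) with h | h <;> rw [h] <;> linarith
  · have := min_le_right (a : ℝ) ((⌊(u : ℝ) * a⌋₊ : ℝ) + 1)
    linarith

theorem cut_meas (a : ℕ) : Measurable (cut a) := by
  unfold cut
  refine Measurable.min measurable_const ?_
  refine Measurable.add_const ?_ 1
  exact Nat.measurable_floor.comp (measurable_subtype_coe.mul_const _)

/-- The probabilities of the values of `cut`. -/
theorem cut_vol (a : ℕ) (l : ℕ) (hl : l ≤ a) :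
    (volume : Measure unitInterval).real {u | cut (a + 1) u = l + 1} = 1 / ((a : ℝ) + 1) := by
  have ha : (0 : ℝ) < (a : ℝ) + 1 := by positivity
  have hlI : (l : ℝ) / ((a : ℝ) + 1) ∈ unitInterval := by
    refine ⟨by positivity, ?_⟩
    rw [div_le_one ha]
    have : (l : ℝ) ≤ a := by exact_mod_cast hl
    linarith
  rcases Nat.lt_or_ge l a with h | h
  · have hlI2 : ((l : ℝ) + 1) / ((a : ℝ) + 1) ∈ unitInterval := by
      refine ⟨by positivity, ?_⟩
      rw [div_le_one ha]
      have : (l : ℝ) ≤ a := by exact_mod_cast hl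
      linarith
    have hset : {u : unitInterval | cut (a + 1) u = l + 1} =
        Set.Ico (⟨_, hlI⟩ : unitInterval) ⟨_, hlI2⟩ := by
      ext u
      have h0 : (0 : ℝ) ≤ (u : ℝ) * ((a : ℝ) + 1) := mul_nonneg u.2.1 ha.le
      simp only [Set.mem_ofPred_eq, Set.mem_Ico, ← Subtype.coe_le_coe, ← Subtype.coe_lt_coe]
      rw [div_le_iff₀ ha, lt_div_iff₀ ha]
      unfold cut
      push_cast
      rw [show (min (a + 1) (⌊(u : ℝ) * ((a : ℝ) + 1)⌋₊ + 1) = l + 1) ↔
        (⌊(u : ℝ) * ((a : ℝ) + 1)⌋₊ = l) from by omega]
      rw [Nat.floor_eq_iff h0]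
    rw [hset, Measure.real, unitInterval.volume_Ico]
    rw [ENNReal.toReal_ofReal]
    · simp only
      field_simp
      ring
    · simp only
      rw [sub_nonneg]
      gcongr
      linarith
  · have hla : l = a := le_antisymm hl h
    subst hla
    have hset : {u : unitInterval | cut (l + 1) u = l + 1} =
        Set.Ici (⟨_, hlI⟩ : unitInterval) := by
      ext u
      have h0 : (0 : ℝ) ≤ (u : ℝ) * ((l : ℝ) + 1) := mul_nonneg u.2.1 ha.le
      simp only [Set.mem_ofPred_eq, Set.mem_Ici, ← Subtype.coe_le_coe]
      rw [div_le_iff₀ ha]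
      unfold cut
      push_cast
      rw [show (min (l + 1) (⌊(u : ℝ) * ((l : ℝ) + 1)⌋₊ + 1) = l + 1) ↔
        (l ≤ ⌊(u : ℝ) * ((l : ℝ) + 1)⌋₊) from by omega]
      rw [Nat.le_floor_iff h0]
    rw [hset, Measure.real, unitInterval.volume_Ici]
    rw [ENNReal.toReal_ofReal]
    · simp only
      field_simp
      ring
    · simp only
      rw [sub_nonneg]
      exact hlI.2

/-- Integral of a function of `cut`. -/
theorem cut_int (a : ℕ) (G : ℕ → ℝ) :
    ∫ u : unitInterval, G (cut (a + 1) u) = (∑ l : Fin (a + 1), G (l.val + 1)) / (a + 1) := by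
  have h1 : ∀ u : unitInterval, G (cut (a + 1) u) =
      ∑ l : Fin (a + 1), Set.indicator {u : unitInterval | cut (a + 1) u = l.val + 1}
        (fun _ => G (l.val + 1)) u := by
    intro u
    have hp := cut_pos (a + 1) u (by omega)
    have hle := cut_le (a + 1) u
    rw [Finset.sum_eq_single (⟨cut (a + 1) u - 1, by omega⟩ : Fin (a + 1))]
    · simp only [Set.indicator, Set.mem_ofPred_eq]
      rw [if_pos (by omega)]
      congr 1
      omega
    · intro b _ hb
      simp only [Set.indicator, Set.mem_ofPred_eq]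
      rw [if_neg]
      intro h
      apply hb
      ext
      simp only
      omega
    · intro h
      exact absurd (Finset.mem_univ _) h
  have hmeas : ∀ l : ℕ, MeasurableSet {u : unitInterval | cut (a + 1) u = l + 1} := by
    intro l
    exact (cut_meas (a + 1)) (measurableSet_singleton (l + 1))
  simp_rw [h1]
  rw [integral_finsetSum]
  · rw [Finset.sum_div]
    refine Finset.sum_congr rfl (fun l _ => ?_)
    rw [integral_indicator (hmeas l.val), setIntegral_const, smul_eq_mul,
      cut_vol a l.val (by omega)]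
    ring
  · intro l _
    exact (integrable_const _).indicator (hmeas l.val)

/-- The sticks as a multiset. -/
noncomputable def seqF : ℕ → ℕ → (ℕ → unitInterval) → Multiset ℕ
  | 0, _, _ => 0
  | n + 1, a, U => if a = 0 then 0 else cut a (U 0) ::ₘ seqF n (a - cut a (U 0)) (shf U)

theorem seqF_meas (n : ℕ) : ∀ (a : ℕ) (Φ : Multiset ℕ → ℝ),
    Measurable (fun U => Φ (seqF n a U)) := by
  induction n with
  | zero => intro a Φ; simp only [seqF]; exact measurable_const
  | succ n ih =>
    intro a Φ
    simp only [seqF]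
    by_cases ha : a = 0
    · simp only [if_pos ha]; exact measurable_const
    · simp only [if_neg ha]
      have hG : Measurable (fun p : ℕ × (ℕ → unitInterval) =>
          Φ (p.1 ::ₘ seqF n (a - p.1) (shf p.2))) := by
        apply measurable_from_prod_countable_right
        intro c
        exact (ih (a - c) (fun s => Φ (c ::ₘ s))).comp shf_meas
      have hpair : Measurable (fun U : ℕ → unitInterval => (cut a (U 0), U)) :=
        Measurable.prodMk ((cut_meas a).comp (measurable_pi_apply 0)) measurable_id
      exact hG.comp hpair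

theorem seqF_le (n : ℕ) : ∀ (a : ℕ) (U : ℕ → unitInterval) (c : ℕ), c ∈ seqF n a U → c ≤ a := by
  induction n with
  | zero => intro a U c hc; simp [seqF] at hc
  | succ n ih =>
    intro a U c hc
    simp only [seqF] at hc
    split_ifs at hc with ha
    · simp at hc
    · rcases Multiset.mem_cons.mp hc with h | h
      · rw [h]; exact cut_le a _
      · exact (ih _ _ _ h).trans (Nat.sub_le _ _)


/-- Discrete stick breaking as an expectation. -/
theorem stick_eq (n : ℕ) : ∀ (a : ℕ), a ≤ n → ∀ (Φ : Multiset ℕ → ℝ) (B : ℝ),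
    (∀ U, |Φ (seqF n a U)| ≤ B) → stick a Φ = ∫ U, Φ (seqF n a U) ∂nuI := by
  induction n with
  | zero =>
    intro a ha Φ B hB
    obtain rfl : a = 0 := by omega
    simp [stick, seqF]
  | succ n ih =>
    intro a ha Φ B hB
    cases a with
    | zero => simp [stick, seqF]
    | succ a =>
      rw [int_decomp _ (seqF_meas (n + 1) (a + 1) Φ) B (fun U => hB _)]
      have hB' : ∀ (u : unitInterval) (U : ℕ → unitInterval),
          |Φ (cut (a + 1) u ::ₘ seqF n (a + 1 - cut (a + 1) u) U)| ≤ B := by
        intro u U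
        have := hB (consU (u, U))
        simp only [seqF] at this
        rw [if_neg (by omega)] at this
        simpa using this
      have h1 : ∀ u : unitInterval, ∫ U, Φ (seqF (n + 1) (a + 1) (consU (u, U))) ∂nuI =
          (fun c => stick (a + 1 - c) fun s => Φ (c ::ₘ s)) (cut (a + 1) u) := by
        intro u
        have hp := cut_pos (a + 1) u (by omega)
        simp only
        rw [ih (a + 1 - cut (a + 1) u) (by omega) _ B (fun U => hB' u U)]
        refine integral_congr_ae (Filter.Eventually.of_forall (fun U => ?_))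
        simp only [seqF]
        rw [if_neg (by omega)]
        simp
      simp_rw [h1]
      rw [cut_int a (fun c => stick (a + 1 - c) fun s => Φ (c ::ₘ s))]
      rw [stick]
      congr 1
      refine Finset.sum_congr rfl (fun l _ => ?_)
      congr 1
      omega

/-- The rest after `J` sticks. -/
noncomputable def Wr (J : ℕ) (U : ℕ → unitInterval) : ℝ := ∏ l ∈ range J, (1 - (U l : ℝ))

/-- The `j`-th stick. -/
noncomputable def Xs (j : ℕ) (U : ℕ → unitInterval) : ℝ := (U j : ℝ) * Wr j U

theorem Wr_succ (J : ℕ) (U : ℕ → unitInterval) : Wr (J + 1) U = (1 - (U 0 : ℝ)) * Wr J (shf U) := by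
  unfold Wr shf
  rw [Finset.prod_range_succ']
  ring

theorem Xs_succ (j : ℕ) (U : ℕ → unitInterval) : Xs (j + 1) U = (1 - (U 0 : ℝ)) * Xs j (shf U) := by
  unfold Xs
  rw [Wr_succ]
  unfold shf
  ring

theorem Wr_nonneg (J : ℕ) (U : ℕ → unitInterval) : 0 ≤ Wr J U :=
  Finset.prod_nonneg (fun l _ => by have := (U l).2.2; linarith)

theorem Wr_le_one (J : ℕ) (U : ℕ → unitInterval) : Wr J U ≤ 1 :=
  Finset.prod_le_one (fun l _ => by have := (U l).2.2; linarith)
    (fun l _ => by have := (U l).2.1; linarith)

theorem Xs_nonneg (j : ℕ) (U : ℕ → unitInterval) : 0 ≤ Xs j U :=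
  mul_nonneg (U j).2.1 (Wr_nonneg j U)

theorem Xs_le_Wr (j : ℕ) (U : ℕ → unitInterval) : Xs j U ≤ Wr j U := by
  unfold Xs
  have := mul_le_mul_of_nonneg_right (U j).2.2 (Wr_nonneg j U)
  linarith

theorem Xs_le_one (j : ℕ) (U : ℕ → unitInterval) : Xs j U ≤ 1 :=
  (Xs_le_Wr j U).trans (Wr_le_one j U)

theorem Wr_anti (U : ℕ → unitInterval) : Antitone (fun J => Wr J U) := by
  apply antitone_nat_of_succ_le
  intro J
  unfold Wr
  rw [Finset.prod_range_succ]
  have h1 : 0 ≤ ∏ l ∈ range J, (1 - (U l : ℝ)) := Wr_nonneg J U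
  have h2 := (U J).2.1
  nlinarith

theorem Wr_meas (J : ℕ) : Measurable (Wr J) := by
  unfold Wr
  refine Finset.measurable_fun_prod _ (fun l _ => ?_)
  exact measurable_const.sub (measurable_subtype_coe.comp (measurable_pi_apply l))

theorem int_u : ∫ u : unitInterval, (1 - (u : ℝ)) = 1 / 2 := by
  have hint : Integrable (fun u : unitInterval => (u : ℝ)) := by
    apply Integrable.of_bound (C := 1) measurable_subtype_coe.aestronglyMeasurable
    exact Filter.Eventually.of_forall (fun u => by
      rw [Real.norm_eq_abs, abs_of_nonneg u.2.1]; exact u.2.2)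
  have h1 : ∫ u : unitInterval, (1 - (u : ℝ)) = ∫ u : unitInterval, (u : ℝ) := by
    have := unitInterval.measurePreserving_symm.integral_comp
      unitInterval.symmMeasurableEquiv.measurableEmbedding (fun u : unitInterval => (u : ℝ))
    rw [← this]
    rfl
  have h2 : ∫ u : unitInterval, (1 - (u : ℝ)) = 1 - ∫ u : unitInterval, (u : ℝ) := by
    rw [integral_sub (integrable_const _) hint]
    simp
  linarith

theorem Wr_int (J : ℕ) : ∫ U, Wr J U ∂nuI = (1 / 2) ^ J := by
  induction J with
  | zero => simp [Wr]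
  | succ J ih =>
    rw [int_decomp _ (Wr_meas (J + 1)) 1 (fun U => by
      rw [abs_of_nonneg (Wr_nonneg _ _)]; exact Wr_le_one _ _)]
    have h1 : ∀ u : unitInterval, ∫ U, Wr (J + 1) (consU (u, U)) ∂nuI =
        (1 - (u : ℝ)) * (1 / 2) ^ J := by
      intro u
      rw [← ih, ← integral_const_mul]
      refine integral_congr_ae (Filter.Eventually.of_forall (fun U => ?_))
      simp only [Wr_succ, consU_zero, shf_consU]
    simp_rw [h1]
    rw [integral_mul_const, int_u]
    ring

/-- The discrete sticks. -/
noncomputable def ell : ℕ → ℕ → (ℕ → unitInterval) → ℕ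
  | 0, a, U => cut a (U 0)
  | j + 1, a, U => ell j (a - cut a (U 0)) (shf U)

/-- The discrete rest. -/
noncomputable def rst : ℕ → ℕ → (ℕ → unitInterval) → ℕ
  | 0, a, _ => a
  | j + 1, a, U => rst j (a - cut a (U 0)) (shf U)

theorem ell_zero_left (j : ℕ) : ∀ U : ℕ → unitInterval, ell j 0 U = 0 := by
  induction j with
  | zero => intro U; exact cut_zero _
  | succ j ih => intro U; simp only [ell]; rw [Nat.zero_sub]; exact ih _

theorem ell_le (j : ℕ) : ∀ (a : ℕ) (U : ℕ → unitInterval), ell j a U ≤ a := by
  induction j with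
  | zero => intro a U; exact cut_le _ _
  | succ j ih => intro a U; simp only [ell]; exact (ih _ _).trans (Nat.sub_le _ _)

theorem ell_le_rst (J : ℕ) : ∀ (j a : ℕ) (U : ℕ → unitInterval), ell (J + j) a U ≤ rst J a U := by
  induction J with
  | zero => intro j a U; simp only [rst, Nat.zero_add]; exact ell_le _ _ _
  | succ J ih =>
    intro j a U
    rw [show J + 1 + j = (J + j) + 1 by ring]
    simp only [ell, rst]
    exact ih _ _ _

theorem rest_near (a : ℕ) (u : unitInterval) :
    |((a - cut a u : ℕ) : ℝ) - a * (1 - (u : ℝ))| ≤ 1 := by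
  have h := cut_near a u
  rw [Nat.cast_sub (cut_le a u)]
  rw [show ((a : ℝ) - (cut a u : ℝ)) - a * (1 - (u : ℝ)) = -((cut a u : ℝ) - u * a) by ring,
    abs_neg]
  exact h

theorem ell_near (j : ℕ) : ∀ (a : ℕ) (U : ℕ → unitInterval),
    |(ell j a U : ℝ) - a * Xs j U| ≤ j + 1 := by
  induction j with
  | zero =>
    intro a U
    have := cut_near a (U 0)
    simp only [ell, Xs, Wr, Finset.range_zero, Finset.prod_empty, mul_one, Nat.cast_zero, zero_add]
    rwa [mul_comm]
  | succ j ih =>
    intro a U
    simp only [ell]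
    rw [Xs_succ]
    have h1 := ih (a - cut a (U 0)) (shf U)
    have h2 := rest_near a (U 0)
    have h3 := Xs_nonneg j (shf U)
    have h4 := Xs_le_one j (shf U)
    set p : ℝ := (ell j (a - cut a (U 0)) (shf U) : ℝ)
    set q : ℝ := ((a - cut a (U 0) : ℕ) : ℝ)
    set x : ℝ := Xs j (shf U)
    have h5 : p - a * ((1 - (U 0 : ℝ)) * x) = (p - q * x) + (q - a * (1 - (U 0 : ℝ))) * x := by ring
    rw [h5]
    calc |(p - q * x) + (q - a * (1 - (U 0 : ℝ))) * x|
        ≤ |p - q * x| + |(q - a * (1 - (U 0 : ℝ))) * x| := abs_add_le _ _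
      _ ≤ (j + 1) + 1 * 1 := by
          rw [abs_mul, abs_of_nonneg h3]
          have := mul_le_mul h2 h4 h3 (by norm_num)
          linarith
      _ = ((j + 1 : ℕ) : ℝ) + 1 := by push_cast; ring

theorem rst_near (j : ℕ) : ∀ (a : ℕ) (U : ℕ → unitInterval),
    |(rst j a U : ℝ) - a * Wr j U| ≤ j := by
  induction j with
  | zero =>
    intro a U
    simp [rst, Wr]
  | succ j ih =>
    intro a U
    simp only [rst]
    rw [Wr_succ]
    have h1 := ih (a - cut a (U 0)) (shf U)
    have h2 := rest_near a (U 0)
    have h3 := Wr_nonneg j (shf U)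
    have h4 := Wr_le_one j (shf U)
    set p : ℝ := (rst j (a - cut a (U 0)) (shf U) : ℝ)
    set q : ℝ := ((a - cut a (U 0) : ℕ) : ℝ)
    set x : ℝ := Wr j (shf U)
    have h5 : p - a * ((1 - (U 0 : ℝ)) * x) = (p - q * x) + (q - a * (1 - (U 0 : ℝ))) * x := by ring
    rw [h5]
    calc |(p - q * x) + (q - a * (1 - (U 0 : ℝ))) * x|
        ≤ |p - q * x| + |(q - a * (1 - (U 0 : ℝ))) * x| := abs_add_le _ _
      _ ≤ j + 1 * 1 := by
          rw [abs_mul, abs_of_nonneg h3]
          have := mul_le_mul h2 h4 h3 (by norm_num)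
          linarith
      _ = ((j + 1 : ℕ) : ℝ) := by push_cast; ring

/-- All discrete sticks are close to the continuous ones. -/
theorem ell_all (J j a : ℕ) (U : ℕ → unitInterval) :
    |(ell j a U : ℝ) - a * Xs j U| ≤ a * Wr J U + J := by
  have ha : (0 : ℝ) ≤ a := Nat.cast_nonneg a
  rcases Nat.lt_or_ge j J with h | h
  · have h1 := ell_near j a U
    have h2 : (j : ℝ) + 1 ≤ J := by exact_mod_cast h
    have h3 := mul_nonneg ha (Wr_nonneg J U)
    linarith
  · obtain ⟨i, rfl⟩ := Nat.exists_eq_add_of_le h
    have h1 := ell_le_rst J i a U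
    have h1' : (ell (J + i) a U : ℝ) ≤ rst J a U := by exact_mod_cast h1
    have h2 := rst_near J a U
    have h3 : Xs (J + i) U ≤ Wr J U := (Xs_le_Wr _ _).trans (Wr_anti U h)
    have h4 := mul_le_mul_of_nonneg_left h3 ha
    have h5 := mul_nonneg ha (Xs_nonneg (J + i) U)
    have h6 : (0 : ℝ) ≤ ell (J + i) a U := Nat.cast_nonneg _
    have h7 : (0 : ℝ) ≤ J := Nat.cast_nonneg _
    rw [abs_le] at h2 ⊢
    constructor <;> linarith [h2.1, h2.2]

end Pool.Agent.W499.PD
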